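import Mathlib
import Pool.Agent.H16.LA.S8.Y733.LS.Pts

/-!
# The sharp local potential at the poles of `j`
-/

set_option autoImplicit false

namespace Pool.Agent.Q237.LS

open Pool.Agent.Y733.LS

section Corr

/-- the correction for the position `c` in `[0, Λ]` -/
noncomputable def corr (Λ c : ℝ) : ℝ := c - c ^ 2 / (2 * Λ)

theorem exp_lt {Λ : ℝ} (h : 0 < Λ) : Real.exp (-Λ) < 1 := by
  have := Real.exp_lt_exp.2 (show -Λ < 0 by linarith)
  rwa [Real.exp_zero] at this

theorem corr_zero (Λ : ℝ) : corr Λ 0 = 0 := by simp [corr]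

theorem corr_self {Λ : ℝ} (h : 0 < Λ) : corr Λ Λ = Λ / 2 := by
  unfold corr
  field_simp
  ring

theorem corr_mono {Λ c c' : ℝ} (hΛ : 0 < Λ) (h : c ≤ c') (h' : c' ≤ Λ) :
    corr Λ c ≤ corr Λ c' := by
  unfold corr
  have e : c' - c' ^ 2 / (2 * Λ) - (c - c ^ 2 / (2 * Λ)) =
      (c' - c) * (2 * Λ - (c + c')) / (2 * Λ) := by
    field_simp
    ring
  have : 0 ≤ (c' - c) * (2 * Λ - (c + c')) / (2 * Λ) :=
    div_nonneg (mul_nonneg (by linarith) (by linarith)) (by linarith)
  linarith

theorem corr_nonneg {Λ c : ℝ} (hΛ : 0 < Λ) (h : 0 ≤ c) (h' : c ≤ Λ) : 0 ≤ corr Λ c := by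
  have := corr_mono hΛ h h'
  rwa [corr_zero] at this

/-- duplication of positions -/
theorem corr_dbl {Λ c c' : ℝ} (hΛ : 0 < Λ) (h' : c' ≤ 2 * c)
    (h2 : c' ≤ 2 * Λ - 2 * c) : corr Λ c' ≤ 2 * c - 2 * c ^ 2 / Λ := by
  rcases le_total (2 * c) Λ with h3 | h3
  · refine (corr_mono hΛ h' h3).trans (le_of_eq ?_)
    unfold corr
    field_simp
  · refine (corr_mono hΛ h2 (by linarith)).trans (le_of_eq ?_)
    unfold corr
    field_simp
    ring

/-- the position of a quantity of size `y` -/
noncomputable def ps (Λ y : ℝ) : ℝ := if y ≤ Real.exp (-Λ) then Λ else max 0 (-Real.log y)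

theorem ps_le {Λ y : ℝ} (hΛ : 0 < Λ) : ps Λ y ≤ Λ := by
  unfold ps
  split_ifs with h
  · exact le_rfl
  · push Not at h
    have := Real.log_lt_log (Real.exp_pos _) h
    rw [Real.log_exp] at this
    exact max_le hΛ.le (by linarith)

theorem ps_nonneg {Λ y : ℝ} (hΛ : 0 < Λ) : 0 ≤ ps Λ y := by
  unfold ps
  split_ifs
  · exact hΛ.le
  · exact le_max_left _ _

theorem ps_big {Λ y : ℝ} (hΛ : 0 < Λ) (h : 1 ≤ y) : ps Λ y = 0 := by
  unfold ps
  have h1 : Real.exp (-Λ) < 1 := exp_lt hΛ
  rw [if_neg (by linarith), max_eq_left]
  have := Real.log_nonneg h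
  linarith

theorem ps_small {Λ y : ℝ} (h : y ≤ Real.exp (-Λ)) : ps Λ y = Λ := if_pos h

theorem ps_mid {Λ y : ℝ} (h : Real.exp (-Λ) < y) (h1 : y ≤ 1) : ps Λ y = -Real.log y := by
  unfold ps
  have h0 : 0 < y := (Real.exp_pos _).trans h
  rw [if_neg (by linarith), max_eq_right]
  have := Real.log_nonpos h0.le h1
  linarith

/-- the size is controlled by the position -/
theorem le_exp_ps {Λ y : ℝ} (h1 : y ≤ 1) : y ≤ Real.exp (-ps Λ y) := by
  rcases le_or_gt y (Real.exp (-Λ)) with h | h
  · rwa [ps_small h]
  · have h0 : 0 < y := (Real.exp_pos _).trans h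
    rw [ps_mid h h1, neg_neg, Real.exp_log h0]

theorem ps_pos_lt {Λ y : ℝ} (hΛ : 0 < Λ) (h : 0 < ps Λ y) : y < 1 := by
  by_contra hcon
  push Not at hcon
  rw [ps_big hΛ hcon] at h
  exact lt_irrefl _ h

theorem ps_le_of_lt {Λ y z : ℝ} (hΛ : 0 < Λ) (hz : 0 < z) (hz1 : z ≤ 1) (h : z ≤ y) :
    ps Λ y ≤ -Real.log z := by
  rcases le_or_gt y (Real.exp (-Λ)) with h2 | h2
  · rw [ps_small h2]
    have h3 : z ≤ Real.exp (-Λ) := h.trans h2
    have := Real.log_le_log hz h3
    rw [Real.log_exp] at this
    linarith
  · rcases le_or_gt y 1 with h3 | h3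
    · rw [ps_mid h2 h3]
      have := Real.log_le_log hz h
      linarith
    · rw [ps_big hΛ h3.le]
      have := Real.log_nonpos hz.le hz1
      linarith

end Corr

section Norm

variable {K : Type} [Field K] {w : AbsoluteValue K ℝ}

theorem pG_Y [CharZero K] (t X : K) : 2 * pG t t X =
    (2 * X + 3) ^ 2 * ((2 * X + 3) - 9) + (4 * t + 27) * ((2 * X + 3) - 1) := by
  unfold pG
  ring

theorem key_Y [CharZero K] (t X : K) : 16 * pF t t X + 24 * pG t t X =
    -(36 * (4 * t + 27)) + ((2 * X + 3) * (2 * X + 3) ^ 3 -
      2 * ((4 * t + 27) * (2 * X + 3) ^ 2) + 8 * ((4 * t + 27) * (2 * X + 3)) +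
      (4 * t + 27) * (4 * t + 27)) := by
  rw [key1]
  ring

/-- **The sharp inequality at a pole of `j`**, in normalised coordinates. -/
theorem sharp1 [CharZero K] (h : Na w) (h2 : w 2 = 1) (h3 : w 3 = 1) {t X : K} {Λ : ℝ}
    (ht : w t = 1) (hΛ : 0 < Λ) (hr : w (4 * t + 27) = Real.exp (-(2 * Λ))) :
    (pG t t X ≠ 0 →
      4 * (Real.log (max (w X) 1) - corr Λ (ps Λ (w (2 * X + 3)))) ≤
        Real.log (max (w (pF t t X)) (w (pG t t X))) -
          corr Λ (ps Λ (w (2 * (pF t t X / pG t t X) + 3)))) ∧
    (pG t t X = 0 →
      4 * (Real.log (max (w X) 1) - corr Λ (ps Λ (w (2 * X + 3)))) ≤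
        Real.log (w (pF t t X))) := by
  have hr1 : w (4 * t + 27) < 1 := by rw [hr]; exact exp_lt (by linarith)
  have h8 : w (8 : K) = 1 := by
    have : (8 : K) = 2 ^ 3 := by norm_num
    rw [this, pw2 h2]
  have h16 : w (16 : K) = 1 := by
    have : (16 : K) = 2 ^ 4 := by norm_num
    rw [this, pw2 h2]
  have h9 : w (9 : K) = 1 := by
    have : (9 : K) = 3 ^ 2 := by norm_num
    rw [this, map_pow, h3, one_pow]
  have h24 : w (24 : K) = 1 := by
    have : (24 : K) = 2 ^ 3 * 3 := by norm_num
    rw [this, map_mul, pw2 h2, h3, one_mul]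
  have h36 : w (36 : K) = 1 := by
    have : (36 : K) = 2 ^ 2 * 3 ^ 2 := by norm_num
    rw [this, map_mul, pw2 h2, map_pow, h3]
    norm_num
  rcases le_or_gt 1 (w (2 * X + 3)) with hX | hX
  · -- the point is good
    obtain ⟨g1, g2⟩ := good1 h h2 ht hr1 hX
    have hm : (1 : ℝ) ≤ max (w X) 1 := le_max_right _ _
    rw [ps_big hΛ hX, corr_zero, sub_zero]
    have e4 : 4 * Real.log (max (w X) 1) = Real.log (max (w X) 1 ^ 4) := by
      rw [Real.log_pow]
      push_cast
      ring
    have hpos : 0 < max (w X) 1 ^ 4 := by positivity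
    constructor
    · intro hG
      rw [ps_big hΛ (g2 hG), corr_zero, sub_zero, e4]
      exact Real.log_le_log hpos g1
    · intro hG
      rw [e4]
      apply Real.log_le_log hpos
      rw [hG, map_zero, max_eq_left (w.nonneg _)] at g1
      exact g1
  · -- the point is bad
    set Y := 2 * X + 3 with hY
    set r := 4 * t + 27 with hr'
    set y := w Y with hy
    have hy0 : 0 ≤ y := w.nonneg _
    have hX1 : w X ≤ 1 := by
      by_contra hcon
      push Not at hcon
      have := lin_big h h2 hcon
      rw [← hY, ← hy] at this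
      linarith
    have hXm : max (w X) 1 = 1 := max_eq_right hX1
    have w2G : w (pG t t X) = w (2 * pG t t X) := by rw [map_mul, h2, one_mul]
    have hY9 : w (Y - 9) = 1 := by
      have e : Y - 9 = -9 + Y := by ring
      rw [e, h.eq, map_neg_eq_map, h9]
      rw [map_neg_eq_map, h9]
      exact hX
    have hY1 : w (Y - 1) = 1 := by
      have e : Y - 1 = -1 + Y := by ring
      rw [e, h.eq, map_neg_eq_map, map_one]
      rw [map_neg_eq_map, map_one]
      exact hX
    have eG := pG_Y t X
    rw [← hY, ← hr'] at eG
    have eK := key_Y t X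
    rw [← hY, ← hr'] at eK
    have hρ0 : 0 < w r := by rw [hr]; exact Real.exp_pos _
    set ρ := w r with hρ
    have e36 : w (-(36 * r)) = ρ := by rw [map_neg_eq_map, map_mul, h36, one_mul]
    have hmul : ∀ (n : ℕ) [n.AtLeastTwo] (z : K) (c : ℝ), w z ≤ c →
        w (OfNat.ofNat n * z) ≤ c := by
      intro n _ z c hz
      rw [map_mul]
      have h1 := h.ofNat (w := w) n
      have h2 := w.nonneg (OfNat.ofNat n : K)
      have h3 := w.nonneg z
      nlinarith
    have hlog0 : Real.log (1 : ℝ) = 0 := Real.log_one
    rw [hXm, hlog0, zero_sub]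
    rcases le_or_gt y (Real.exp (-Λ)) with hc | hc
    · -- position `Λ`
      have hy2 : y * y ≤ ρ := by
        rw [hr]
        have : Real.exp (-(2 * Λ)) = Real.exp (-Λ) * Real.exp (-Λ) := by
          rw [← Real.exp_add]
          congr 1
          ring
        rw [this]
        exact mul_le_mul hc hc hy0 (Real.exp_pos _).le
      have hGρ : w (pG t t X) ≤ ρ := by
        rw [w2G, eG]
        apply h.le_add
        · rw [map_mul, hY9, mul_one, map_pow, ← hy]
          nlinarith
        · rw [map_mul, hY1, mul_one]
      have hrest : w (Y * Y ^ 3 - 2 * (r * Y ^ 2) + 8 * (r * Y) + r * r) < ρ := by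
        apply h.lt_add
        · apply h.lt_add
          · apply h.lt_sub
            · rw [map_mul, map_pow, ← hy]
              have e : y * y ^ 3 = (y * y) * (y * y) := by ring
              rw [e]
              nlinarith [mul_nonneg hy0 hy0]
            · refine lt_of_le_of_lt (hmul 2 _ (ρ * y ^ 2) (by rw [map_mul, map_pow])) ?_
              nlinarith [mul_nonneg hy0 hy0]
          · refine lt_of_le_of_lt (hmul 8 _ (ρ * y) (by rw [map_mul])) ?_
            nlinarith
        · rw [map_mul]
          nlinarith
      have hK : w (16 * pF t t X + 24 * pG t t X) = ρ := by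
        rw [eK, h.eq, e36]
        rw [e36]
        exact hrest
      have hFG : ρ ≤ max (w (pF t t X)) (w (pG t t X)) := by
        rw [← hK]
        refine (h _ _).trans ?_
        rw [map_mul, map_mul, h16, h24, one_mul, one_mul]
      have hlogρ : Real.log ρ = -(2 * Λ) := by rw [hr, Real.log_exp]
      rw [ps_small hc, corr_self hΛ]
      constructor
      · intro hG
        have hG0 : 0 < w (pG t t X) := w.pos hG
        have e5 : 2 * (pF t t X / pG t t X) + 3 =
            (16 * pF t t X + 24 * pG t t X) / (8 * pG t t X) := by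
          field_simp
          ring
        have h6 : 1 ≤ w (2 * (pF t t X / pG t t X) + 3) := by
          rw [e5, map_div₀, hK, map_mul, h8, one_mul, le_div_iff₀ hG0, one_mul]
          exact hGρ
        rw [ps_big hΛ h6, corr_zero, sub_zero]
        have := Real.log_le_log hρ0 hFG
        rw [hlogρ] at this
        linarith
      · intro hG
        rw [hG, map_zero, max_eq_left (w.nonneg _)] at hFG
        have := Real.log_le_log hρ0 hFG
        rw [hlogρ] at this
        linarith
    · -- position in the interior
      have hypos : 0 < y := (Real.exp_pos _).trans hc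
      have hy2 : ρ < y ^ 2 := by
        rw [hr]
        have : Real.exp (-(2 * Λ)) = Real.exp (-Λ) * Real.exp (-Λ) := by
          rw [← Real.exp_add]
          congr 1
          ring
        rw [this, sq]
        exact mul_lt_mul'' hc hc (Real.exp_pos _).le (Real.exp_pos _).le
      have hGy : w (pG t t X) = y ^ 2 := by
        rw [w2G, eG, h.eq, map_mul, hY9, mul_one, map_pow]
        rw [map_mul, map_mul, hY9, hY1, mul_one, mul_one, map_pow]
        exact hy2
      have hG : pG t t X ≠ 0 := by
        intro h0
        rw [h0, map_zero] at hGy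
        have : 0 < y ^ 2 := by positivity
        linarith
      have hy21 : y ^ 2 < 1 := by nlinarith
      have hKlt : w (16 * pF t t X + 24 * pG t t X) < y ^ 2 := by
        rw [eK]
        apply h.lt_add
        · rw [e36]; exact hy2
        · apply h.lt_add
          · apply h.lt_add
            · apply h.lt_sub
              · rw [map_mul, map_pow, ← hy]
                have e : y * y ^ 3 = y ^ 2 * y ^ 2 := by ring
                rw [e]
                nlinarith [pow_pos hypos 2]
              · refine lt_of_le_of_lt (hmul 2 _ (ρ * y ^ 2) (by rw [map_mul, map_pow])) ?_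
                nlinarith [pow_pos hypos 2]
            · refine lt_of_le_of_lt (hmul 8 _ (ρ * y) (by rw [map_mul])) ?_
              nlinarith
          · rw [map_mul]
            nlinarith
      have hmax : y ^ 2 ≤ max (w (pF t t X)) (w (pG t t X)) := by
        rw [← hGy]; exact le_max_right _ _
      have hlog2 : Real.log (y ^ 2) = 2 * Real.log y := by
        rw [Real.log_pow]; push_cast; ring
      set c := -Real.log y with hcdef
      have hps : ps Λ y = c := ps_mid hc hX.le
      have hcΛ : c < Λ := by
        have := Real.log_lt_log (Real.exp_pos _) hc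
        rw [Real.log_exp] at this
        linarith
      have hc0 : 0 < c := by
        have := Real.log_neg hypos hX
        linarith
      have e5 : 2 * (pF t t X / pG t t X) + 3 =
          (16 * pF t t X + 24 * pG t t X) / (8 * pG t t X) := by
        field_simp
        ring
      have hlogρ : Real.log ρ = -(2 * Λ) := by rw [hr, Real.log_exp]
      have hyy : Real.exp (-c) = y := by rw [hcdef, neg_neg, Real.exp_log hypos]
      -- the position of the double
      have hc' : ps Λ (w (2 * (pF t t X / pG t t X) + 3)) ≤ 2 * c ∧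
          ps Λ (w (2 * (pF t t X / pG t t X) + 3)) ≤ 2 * Λ - 2 * c := by
        have hy' : w (2 * (pF t t X / pG t t X) + 3) =
            w (16 * pF t t X + 24 * pG t t X) / y ^ 2 := by
          rw [e5, map_div₀, map_mul, h8, one_mul, hGy]
        -- the size of the remaining terms
        have hr2 : w (-(2 * (r * Y ^ 2)) + 8 * (r * Y) + r * r) < ρ := by
          apply h.lt_add
          · apply h.lt_add
            · rw [map_neg_eq_map]
              refine lt_of_le_of_lt (hmul 2 _ (ρ * y ^ 2) (by rw [map_mul, map_pow])) ?_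
              nlinarith [pow_pos hypos 2]
            · refine lt_of_le_of_lt (hmul 8 _ (ρ * y) (by rw [map_mul])) ?_
              nlinarith
          · rw [map_mul]
            nlinarith
        rcases lt_trichotomy (y ^ 4) ρ with h7 | h7 | h7
        · have hval : w (16 * pF t t X + 24 * pG t t X) = ρ := by
            rw [eK, h.eq, e36]
            rw [e36]
            have e : Y * Y ^ 3 - 2 * (r * Y ^ 2) + 8 * (r * Y) + r * r =
                Y ^ 4 + (-(2 * (r * Y ^ 2)) + 8 * (r * Y) + r * r) := by ring
            rw [e]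
            apply h.lt_add _ hr2
            rw [map_pow]
            exact h7
          have h8' : Real.log (ρ / y ^ 2) = 2 * c - 2 * Λ := by
            rw [Real.log_div hρ0.ne' (by positivity), hlogρ, hlog2]
            rw [hcdef]; ring
          have h9' : 4 * Real.log y < -(2 * Λ) := by
            have := Real.log_lt_log (by positivity) h7
            rw [Real.log_pow, hlogρ] at this
            push_cast at this
            exact this
          have h10 : 2 * Λ - 2 * c < 2 * c := by rw [hcdef]; linarith
          have h11 : ps Λ (ρ / y ^ 2) ≤ 2 * Λ - 2 * c := by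
            have := ps_le_of_lt (Λ := Λ) (y := ρ / y ^ 2) (z := ρ / y ^ 2) hΛ (by positivity)
              (by rw [div_le_one (by positivity)]; exact hy2.le) le_rfl
            rw [h8'] at this
            linarith
          rw [hy', hval]
          exact ⟨by linarith, h11⟩
        · have h9' : 4 * Real.log y = -(2 * Λ) := by
            have := congrArg Real.log h7
            rw [Real.log_pow, hlogρ] at this
            push_cast at this
            exact this
          have h10 : 2 * c = Λ := by rw [hcdef]; linarith
          have := ps_le (y := w (2 * (pF t t X / pG t t X) + 3)) hΛ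
          exact ⟨by linarith, by linarith⟩
        · have hval : w (16 * pF t t X + 24 * pG t t X) = y ^ 4 := by
            have e : 16 * pF t t X + 24 * pG t t X =
                Y ^ 4 + (-(36 * r) + (-(2 * (r * Y ^ 2)) + 8 * (r * Y) + r * r)) := by
              rw [eK]; ring
            have hY4 : w (Y ^ 4) = y ^ 4 := map_pow _ _ _
            rw [e, h.eq, hY4]
            rw [hY4]
            refine lt_of_le_of_lt (h _ _) ?_
            rw [e36]
            exact max_lt h7 (hr2.trans h7)
          have h8' : Real.log (y ^ 4 / y ^ 2) = -(2 * c) := by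
            have e : y ^ 4 / y ^ 2 = y ^ 2 := by field_simp
            rw [e, hlog2, hcdef]; ring
          have h9' : -(2 * Λ) < 4 * Real.log y := by
            have := Real.log_lt_log hρ0 h7
            rw [Real.log_pow, hlogρ] at this
            push_cast at this
            exact this
          have h10 : 2 * c < 2 * Λ - 2 * c := by rw [hcdef]; linarith
          have h11 : ps Λ (y ^ 4 / y ^ 2) ≤ 2 * c := by
            have e : y ^ 4 / y ^ 2 = y ^ 2 := by field_simp
            have := ps_le_of_lt (Λ := Λ) (y := y ^ 4 / y ^ 2) (z := y ^ 4 / y ^ 2) hΛ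
              (by positivity) (by rw [e]; exact hy21.le) le_rfl
            rw [h8'] at this
            linarith
          rw [hy', hval]
          exact ⟨h11, by linarith⟩
      refine ⟨fun _ => ?_, fun h0 => absurd h0 hG⟩
      rw [hps]
      have h12 := corr_dbl hΛ hc'.1 hc'.2
      have h13 := Real.log_le_log (by positivity) hmax
      rw [hlog2] at h13
      have h14 : 4 * corr Λ c = 4 * c - 2 * c ^ 2 / Λ := by
        unfold corr
        field_simp
        ring
      have h15 : Real.log y = -c := by rw [hcdef]; ring
      rw [h15] at h13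
      linarith

end Norm

end Pool.Agent.Q237.LS
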