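import Mathlib
import Pool.Agent.H16.LA.R39.Q237.LS.Pot

/-!
# The corrected height: the sharp potentials at the poles of `j`
-/

set_option autoImplicit false
set_option linter.unusedSectionVars false

namespace Pool.Agent.Q237.LS

open NumberField IsDedekindDomain Finset Pool.Agent.H691R3 Pool.Agent.W223.AK
open Pool.Agent.TH942 Pool.Agent.TH910.LS Pool.Agent.Y733.LS WeierstrassCurve Filter Topology

section Scale

variable {K : Type} [Field K] {w : AbsoluteValue K ℝ} {a b : K}

/-- **The sharp inequality at a pole of `j`.** -/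
theorem sharp [CharZero K] (h : Na w) (h2 : w 2 = 1) (h3 : w 3 = 1) (ha : a ≠ 0) (hb : b ≠ 0)
    (hab : w a ^ 3 = w b ^ 2) {Λ : ℝ} (hΛ : 0 < Λ)
    (hr : w (dl a b) = Real.exp (-(2 * Λ)) * w b ^ 2) (x : K) :
    (pG a b x ≠ 0 →
      4 * (Real.log (max (w x) (sz w a b)) - corr Λ (ps Λ (w (2 * a * x + 3 * b) / w b))) ≤
        Real.log (max (w (pF a b x)) (sz w a b * w (pG a b x))) -
          corr Λ (ps Λ (w (2 * a * (pF a b x / pG a b x) + 3 * b) / w b))) ∧
    (pG a b x = 0 →
      4 * (Real.log (max (w x) (sz w a b)) - corr Λ (ps Λ (w (2 * a * x + 3 * b) / w b))) ≤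
        Real.log (max (w (pF a b x)) (sz w a b * w (pG a b x)))) := by
  have ht := t_unit hb hab
  have hr' : w (4 * (a ^ 3 / b ^ 2) + 27) = Real.exp (-(2 * Λ)) := by
    rw [dl_scale hb, map_div₀, map_pow, hr, mul_div_cancel_right₀ _ (pow_pos (w.pos hb) _).ne']
  obtain ⟨s1, s2⟩ := sharp1 (X := x * a / b) h h2 h3 ht hΛ hr'
  obtain ⟨e1, e2⟩ := sz_eq_of hab
  have hs0 : 0 < sz w a b := sz_pos ha
  have hc : w (b / a) = sz w a b := by
    rw [map_div₀, div_eq_iff (w.pos ha).ne', e1, e2]
    ring
  have hY : ∀ z : K, w (2 * (z * a / b) + 3) = w (2 * a * z + 3 * b) / w b := by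
    intro z
    have e : 2 * (z * a / b) + 3 = (2 * a * z + 3 * b) / b := by
      field_simp
    rw [e, map_div₀]
  have hX : w x = sz w a b * w (x * a / b) := by
    have e : x = (b / a) * (x * a / b) := by field_simp
    conv_lhs => rw [e]
    rw [map_mul, hc]
  set s := sz w a b with hs
  set F' := pF (a ^ 3 / b ^ 2) (a ^ 3 / b ^ 2) (x * a / b) with hF'
  set G' := pG (a ^ 3 / b ^ 2) (a ^ 3 / b ^ 2) (x * a / b) with hG'
  have eF : w (pF a b x) = s ^ 4 * w F' := by
    rw [pF_scale ha hb, map_mul, map_pow, hc]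
  have eG : s * w (pG a b x) = s ^ 4 * w G' := by
    rw [pG_scale ha hb, map_mul, map_pow, hc]
    ring
  have emax : max (w x) s = s * max (w (x * a / b)) 1 := by
    rw [hX, mul_max_of_nonneg _ _ hs0.le, mul_one]
  have emax2 : max (w (pF a b x)) (s * w (pG a b x)) = s ^ 4 * max (w F') (w G') := by
    rw [eF, eG, mul_max_of_nonneg _ _ (by positivity)]
  have hm1 : 0 < max (w (x * a / b)) 1 := lt_max_of_lt_right one_pos
  have l1 : Real.log (max (w x) s) = Real.log s + Real.log (max (w (x * a / b)) 1) := by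
    rw [emax, Real.log_mul hs0.ne' hm1.ne']
  have hFG : F' ≠ 0 ∨ G' ≠ 0 := by
    by_contra hcon
    push Not at hcon
    obtain ⟨c1, c2⟩ := hcon
    have h5 := res1 (a ^ 3 / b ^ 2) (a ^ 3 / b ^ 2) (x * a / b)
    rw [← hF', ← hG', c1, c2, mul_zero, mul_zero, sub_zero] at h5
    have h6 : dl (a ^ 3 / b ^ 2) (a ^ 3 / b ^ 2) = 0 := by
      rcases mul_eq_zero.1 h5.symm with h7 | h7
      · norm_num at h7
      · exact h7
    have h8 : dl (a ^ 3 / b ^ 2) (a ^ 3 / b ^ 2) =
        (a ^ 3 / b ^ 2) ^ 2 * (4 * (a ^ 3 / b ^ 2) + 27) := by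
      unfold dl
      ring
    have h9 : w (dl (a ^ 3 / b ^ 2) (a ^ 3 / b ^ 2)) = Real.exp (-(2 * Λ)) := by
      rw [h8, map_mul, map_pow, ht, one_pow, one_mul, hr']
    rw [h6, map_zero] at h9
    exact absurd h9.symm (Real.exp_pos _).ne'
  have hm2 : 0 < max (w F') (w G') := by
    rcases hFG with h5 | h5
    · exact lt_max_of_lt_left (w.pos h5)
    · exact lt_max_of_lt_right (w.pos h5)
  have l2 : Real.log (max (w (pF a b x)) (s * w (pG a b x))) =
      4 * Real.log s + Real.log (max (w F') (w G')) := by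
    rw [emax2, Real.log_mul (by positivity) hm2.ne', Real.log_pow]
    push_cast
    ring
  rw [hY] at s1 s2
  constructor
  · intro hG
    have hG1 : G' ≠ 0 := pG_ne ha hb hG
    have s3 := s1 hG1
    have e9 : w (2 * (F' / G') + 3) = w (2 * a * (pF a b x / pG a b x) + 3 * b) / w b := by
      rw [hF', hG', ← quot_scale ha hb, hY]
    rw [e9] at s3
    rw [l1, l2]
    linarith
  · intro hG
    have hG1 : G' = 0 := by
      by_contra h5
      have : pG a b x ≠ 0 := by
        rw [pG_scale ha hb]
        exact mul_ne_zero (pow_ne_zero _ (div_ne_zero hb ha)) h5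
      exact this hG
    have s3 := s2 hG1
    rw [l1, l2]
    have h5 : Real.log (w F') ≤ Real.log (max (w F') (w G')) := by
      apply Real.log_le_log _ (le_max_left _ _)
      rcases hFG with h6 | h6
      · exact w.pos h6
      · exact absurd hG1 h6
    linarith

/-- the distance of two points at a pole of `j` -/
theorem pair_pole [CharZero K] (h : Na w) (h2 : w 2 = 1) (ha : a ≠ 0) (hb : b ≠ 0)
    (hab : w a ^ 3 = w b ^ 2) {Λ : ℝ} (hΛ : 0 < Λ) {x x' : K} (hx : x ≠ x') :
    Real.log (w (x - x')) ≤ Real.log (max (w x) (sz w a b)) + Real.log (max (w x') (sz w a b)) -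
      Real.log (sz w a b) - min (ps Λ (w (2 * a * x + 3 * b) / w b))
        (ps Λ (w (2 * a * x' + 3 * b) / w b)) := by
  obtain ⟨e1, e2⟩ := sz_eq_of hab
  have hs0 : 0 < sz w a b := sz_pos ha
  set s := sz w a b with hs
  have hm1 : 0 < max (w x) s := lt_max_of_lt_right hs0
  have hm2 : 0 < max (w x') s := lt_max_of_lt_right hs0
  have hd : 0 < w (x - x') := w.pos (sub_ne_zero.2 hx)
  have hb0 : 0 < w b := w.pos hb
  set c := ps Λ (w (2 * a * x + 3 * b) / w b) with hc
  set c' := ps Λ (w (2 * a * x' + 3 * b) / w b) with hc'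
  rw [← Real.log_mul hm1.ne' hm2.ne', ← Real.log_div (mul_pos hm1 hm2).ne' hs0.ne']
  rcases (lt_or_ge 0 (min c c')) with hmin | hmin
  · obtain ⟨p1, p2⟩ := lt_min_iff.1 hmin
    have q1 : w (2 * a * x + 3 * b) ≤ w b * Real.exp (-c) := by
      have := le_exp_ps (Λ := Λ) (ps_pos_lt hΛ p1).le
      rw [div_le_iff₀ hb0] at this
      linarith
    have q2 : w (2 * a * x' + 3 * b) ≤ w b * Real.exp (-c') := by
      have := le_exp_ps (Λ := Λ) (ps_pos_lt hΛ p2).le
      rw [div_le_iff₀ hb0] at this
      linarith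
    have r1 : Real.exp (-c) ≤ Real.exp (-min c c') :=
      Real.exp_le_exp.2 (neg_le_neg (min_le_left _ _))
    have r2 : Real.exp (-c') ≤ Real.exp (-min c c') :=
      Real.exp_le_exp.2 (neg_le_neg (min_le_right _ _))
    have q3 : w (2 * a * (x - x')) ≤ w b * Real.exp (-min c c') := by
      have e : 2 * a * (x - x') = (2 * a * x + 3 * b) - (2 * a * x' + 3 * b) := by ring
      rw [e]
      apply h.le_sub
      · exact q1.trans (mul_le_mul_of_nonneg_left r1 hb0.le)
      · exact q2.trans (mul_le_mul_of_nonneg_left r2 hb0.le)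
    rw [map_mul, map_mul, h2, one_mul, e1, e2] at q3
    have q4 : w (x - x') ≤ s * Real.exp (-min c c') := by
      have : s ^ 2 * w (x - x') ≤ s ^ 2 * (s * Real.exp (-min c c')) := by
        calc s ^ 2 * w (x - x') ≤ s ^ 3 * Real.exp (-min c c') := q3
          _ = _ := by ring
      exact le_of_mul_le_mul_left this (by positivity)
    have q5 := Real.log_le_log hd q4
    rw [Real.log_mul hs0.ne' (Real.exp_pos _).ne', Real.log_exp] at q5
    have q6 : Real.log s ≤ Real.log (max (w x) s * max (w x') s / s) := by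
      apply Real.log_le_log hs0
      rw [le_div_iff₀ hs0]
      exact mul_le_mul (le_max_right _ _) (le_max_right _ _) hs0.le hm1.le
    linarith
  · have q7 : w (x - x') ≤ max (w x) s * max (w x') s / s := by
      rw [le_div_iff₀ hs0]
      refine (mul_le_mul_of_nonneg_right (h.sub x x') hs0.le).trans ?_
      rcases max_choice (w x) (w x') with h5 | h5
      · rw [h5]
        exact mul_le_mul (le_max_left _ _) (le_max_right _ _) hs0.le hm1.le
      · rw [h5, mul_comm (w x')]
        exact mul_le_mul (le_max_right _ _) (le_max_left _ _) (w.nonneg _) hm1.le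
    have := Real.log_le_log hd q7
    linarith

/-- the distance of two points, in general -/
theorem pair_gen {C : ℝ} (hC : 1 ≤ C) (ha : a ≠ 0) {x x' : K} (hx : x ≠ x')
    (h : w (x - x') ≤ C * max (w x) (w x')) :
    Real.log (w (x - x')) ≤ Real.log (max (w x) (sz w a b)) + Real.log (max (w x') (sz w a b)) -
      Real.log (sz w a b) + Real.log C := by
  have hs0 : 0 < sz w a b := sz_pos ha
  set s := sz w a b with hs
  have hC0 : 0 < C := by linarith
  have hm1 : 0 < max (w x) s := lt_max_of_lt_right hs0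
  have hm2 : 0 < max (w x') s := lt_max_of_lt_right hs0
  have hd : 0 < w (x - x') := w.pos (sub_ne_zero.2 hx)
  rw [← Real.log_mul hm1.ne' hm2.ne', ← Real.log_div (mul_pos hm1 hm2).ne' hs0.ne',
    ← Real.log_mul (div_pos (mul_pos hm1 hm2) hs0).ne' hC0.ne']
  apply Real.log_le_log hd
  have q7 : max (w x) (w x') ≤ max (w x) s * max (w x') s / s := by
    rw [le_div_iff₀ hs0]
    rcases max_choice (w x) (w x') with h5 | h5
    · rw [h5]
      exact mul_le_mul (le_max_left _ _) (le_max_right _ _) hs0.le hm1.le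
    · rw [h5, mul_comm (w x')]
      exact mul_le_mul (le_max_right _ _) (le_max_left _ _) (w.nonneg _) hm1.le
  refine h.trans ?_
  rw [mul_comm]
  exact mul_le_mul_of_nonneg_right q7 hC0.le

/-- the distance of two large points -/
theorem pair_large (h : Na w) (ha : a ≠ 0) {Q : ℝ} (hQ : 0 < Q) {x x' : K} (hx : x ≠ x')
    (h1 : sz w a b * Q ≤ w x) (h2 : sz w a b * Q ≤ w x') :
    Real.log (w (x - x')) ≤ Real.log (max (w x) (sz w a b)) + Real.log (max (w x') (sz w a b)) -
      Real.log (sz w a b) - Real.log Q := by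
  have hs0 : 0 < sz w a b := sz_pos ha
  set s := sz w a b with hs
  have hm1 : 0 < max (w x) s := lt_max_of_lt_right hs0
  have hm2 : 0 < max (w x') s := lt_max_of_lt_right hs0
  have hd : 0 < w (x - x') := w.pos (sub_ne_zero.2 hx)
  rw [← Real.log_mul hm1.ne' hm2.ne', ← Real.log_div (mul_pos hm1 hm2).ne' hs0.ne',
    ← Real.log_div (div_pos (mul_pos hm1 hm2) hs0).ne' hQ.ne']
  apply Real.log_le_log hd
  rw [div_div, le_div_iff₀ (mul_pos hs0 hQ)]
  refine (mul_le_mul_of_nonneg_right (h.sub x x') (mul_pos hs0 hQ).le).trans ?_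
  rcases max_choice (w x) (w x') with h5 | h5
  · rw [h5]
    exact mul_le_mul (le_max_left _ _) (h2.trans (le_max_left _ _)) (mul_pos hs0 hQ).le hm1.le
  · rw [h5, mul_comm (w x')]
    exact mul_le_mul (h1.trans (le_max_left _ _)) (le_max_left _ _) (w.nonneg _) hm1.le

end Scale

section Glob

variable {K : Type} [Field K] [NumberField K]

theorem wf_finite (j : K) : {v : Pr K | fv v 2 = 1 ∧ fv v 3 = 1 ∧ 1 < fv v j}.Finite := by
  refine (ne_sets (one_ne_zero) (one_ne_zero) j).subset ?_
  rintro v ⟨_, _, h⟩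
  exact Or.inr (Or.inr h)

/-- the poles of `j` which do not divide `6` -/
noncomputable def wf (j : K) : Finset (Pr K) := (wf_finite j).toFinset

theorem mem_wf {j : K} {v : Pr K} : v ∈ wf j ↔ fv v 2 = 1 ∧ fv v 3 = 1 ∧ 1 < fv v j := by
  unfold wf
  rw [Set.Finite.mem_toFinset]
  rfl

/-- half of the logarithm of `|j|_v` -/
noncomputable def lam (j : K) (v : Pr K) : ℝ := Real.log (fv v j) / 2

theorem lam_pos {j : K} {v : Pr K} (h : v ∈ wf j) : 0 < lam j v :=
  div_pos (Real.log_pos (mem_wf.1 h).2.2) two_pos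

/-- the part of the height which comes from the poles not dividing `6` -/
noncomputable def wd (j : K) : ℝ := ∑ v ∈ wf j, Real.log (fv v j)

/-- the truncated counting function of the poles not dividing `6` -/
noncomputable def fd (j : K) : ℝ := ∑ v ∈ wf j, Real.log (Nv v)

theorem wf_facts {a b : K} (hD : dl a b ≠ 0) {v : Pr K} (h : v ∈ wf (jj a b)) :
    fv v a ^ 3 = fv v b ^ 2 ∧
      fv v (dl a b) = Real.exp (-(2 * lam (jj a b) v)) * fv v b ^ 2 := by
  obtain ⟨h2, h3, hj⟩ := mem_wf.1 h
  have hn := fv_Na v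
  have h6912 : fv v (6912 : K) = 1 := by
    have : (6912 : K) = 2 ^ 8 * 3 ^ 3 := by norm_num
    rw [this, map_mul, map_pow, map_pow, h2, h3]
    norm_num
  have h27 : fv v (27 : K) = 1 := by
    have : (27 : K) = 3 ^ 3 := by norm_num
    rw [this, map_pow, h3]
    norm_num
  have h4 : fv v (4 : K) = 1 := by
    have : (4 : K) = 2 ^ 2 := by norm_num
    rw [this, map_pow, h2]
    norm_num
  have hd0 : 0 < fv v (dl a b) := (fv v).pos hD
  have hJ : fv v (jj a b) * fv v (dl a b) = fv v a ^ 3 := by
    rw [w_jj, h6912, one_mul, div_mul_cancel₀ _ hd0.ne']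
  have e : 27 * b ^ 2 = -(4 * a ^ 3) + dl a b := by unfold dl; ring
  have e1 : fv v (27 * b ^ 2) = fv v b ^ 2 := by rw [map_mul, h27, one_mul, map_pow]
  have e2 : fv v (-(4 * a ^ 3)) = fv v a ^ 3 := by
    rw [map_neg_eq_map, map_mul, h4, one_mul, map_pow]
  have e3 : fv v b ^ 2 = fv v a ^ 3 := by
    rw [← e1, e, hn.eq, e2]
    rw [e2, ← hJ]
    nlinarith
  refine ⟨e3.symm, ?_⟩
  have hJ0 : 0 < fv v (jj a b) := by linarith
  have e4 : Real.exp (-(2 * lam (jj a b) v)) = (fv v (jj a b))⁻¹ := by
    unfold lam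
    rw [show -(2 * (Real.log (fv v (jj a b)) / 2)) = -Real.log (fv v (jj a b)) by ring,
      Real.exp_neg, Real.exp_log hJ0]
  rw [e4, e3, ← hJ]
  field_simp

open Classical in
theorem fsum_ite (S : Finset (Pr K)) (g : Pr K → ℝ) :
    ∑ᶠ v, (if v ∈ S then g v else 0) = ∑ v ∈ S, g v := by
  rw [finsum_eq_sum_of_support_subset (s := S)]
  · exact Finset.sum_congr rfl fun v hv => if_pos hv
  · intro v hv
    rw [Function.mem_support] at hv
    by_contra hcon
    exact hv (if_neg hcon)

open Classical in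
theorem supp_ite (S : Finset (Pr K)) (g : Pr K → ℝ) :
    (Function.support fun v => if v ∈ S then g v else 0).Finite := by
  refine S.finite_toSet.subset ?_
  intro v hv
  rw [Function.mem_support] at hv
  by_contra hcon
  exact hv (if_neg hcon)

open Classical in
theorem Sm_ite (S : Finset (Pr K)) (g : Pr K → ℝ) :
    Sm (fun _ : InfinitePlace K => (0 : ℝ)) (fun v => if v ∈ S then g v else 0) =
      ∑ v ∈ S, g v := by
  unfold Sm
  simp only [mul_zero, Finset.sum_const_zero, zero_add]
  exact fsum_ite S g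

/-- the position of `x` at `v` -/
noncomputable def po (a b x : K) (v : Pr K) : ℝ :=
  ps (lam (jj a b) v) (fv v (2 * a * x + 3 * b) / fv v b)

/-- the correction at `v` -/
noncomputable def cr (a b x : K) (v : Pr K) : ℝ := corr (lam (jj a b) v) (po a b x v)

/-- the corrected height -/
noncomputable def Psi (a b x : K) : ℝ := Sa (Lam a b x) - ∑ v ∈ wf (jj a b), cr a b x v

open Classical in
/-- the loss at the finite places -/
noncomputable def lossg (a b : K) (v : Pr K) : ℝ :=
  if v ∈ wf (jj a b) then 0 else Real.log (sz (fv v) a b ^ 6 / fv v (4 * dl a b))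

/-- the total loss -/
noncomputable def Loss (a b : K) : ℝ := Sm (lossi a b) (lossg a b)

theorem Fs_lossg {a b : K} (ha : a ≠ 0) (hb : b ≠ 0) (hD : dl a b ≠ 0) :
    (Function.support (lossg a b)).Finite := by
  have h4 : (4 : K) * dl a b ≠ 0 := mul_ne_zero (by norm_num) hD
  refine ((ne_sets ha hb 0).union (fv_support_finite h4)).subset ?_
  intro v hv
  rw [Function.mem_support] at hv
  by_contra hcon
  simp only [Set.mem_union, Set.mem_ofPred_eq, not_or, not_not, not_lt] at hcon
  obtain ⟨⟨h1, h2, _⟩, h3⟩ := hcon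
  apply hv
  unfold lossg
  split_ifs
  · rfl
  · rw [sz_one h1 h2, h3]
    norm_num

theorem Psi_eq {a b : K} (ha : a ≠ 0) (hb : b ≠ 0) (x : K) [DecidableEq (Pr K)] :
    Psi a b x = Sm (fun w => Lam a b x w.1)
      (fun v : Pr K => Lam a b x (fv v) - if v ∈ wf (jj a b) then cr a b x v else 0) := by
  classical
  have e : Sm (fun w : InfinitePlace K => Lam a b x w.1)
      (fun v : Pr K => Lam a b x (fv v) - if v ∈ wf (jj a b) then cr a b x v else 0) =
      Sm (fun w : InfinitePlace K => Lam a b x w.1 - 0)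
      (fun v : Pr K => Lam a b x (fv v) - if v ∈ wf (jj a b) then cr a b x v else 0) := by
    simp only [sub_zero]
  have hs1 : (Function.support fun v : Pr K => Lam a b x (fv v)).Finite := Fs_Lam ha hb x
  have hs2 : (Function.support fun v : Pr K =>
      if v ∈ wf (jj a b) then cr a b x v else 0).Finite := by
    convert supp_ite (wf (jj a b)) (cr a b x)
  rw [e, Sm_sub hs1 hs2]
  unfold Psi
  congr 1
  convert (Sm_ite (wf (jj a b)) (cr a b x)).symm

/-- the local inequality at the archimedean places -/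
theorem loc_inf {a b : K} (ha : a ≠ 0) (hD : dl a b ≠ 0) (x : K) (w : InfinitePlace K) :
    4 * Lam a b x w.1 - lossi a b w ≤
      Real.log (max (w.1 (pF a b x)) (sz w.1 a b * w.1 (pG a b x))) := by
  have h4D : (4 : K) * dl a b ≠ 0 := mul_ne_zero (by norm_num) hD
  have h1 := res_arch (w := w.1) (fun n => (inf_nat w n).le) (x := x) (sz_pos (b := b) ha)
    (le_sz_sq w.1 a b) (le_sz_cube w.1 a b)
  have h2 : 0 < w.1 (4 * dl a b) := w.1.pos h4D
  have h3 : 0 < sz w.1 a b := sz_pos ha
  have hM : 0 < max (w.1 x) (sz w.1 a b) := lt_max_of_lt_right h3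
  have hR : 0 < max (w.1 (pF a b x)) (sz w.1 a b * w.1 (pG a b x)) := by
    by_contra hcon
    push Not at hcon
    have h5 : 0 < w.1 (4 * dl a b) * max (w.1 x) (sz w.1 a b) ^ 4 := by positivity
    have h6 : 1000 * sz w.1 a b ^ 6 *
        max (w.1 (pF a b x)) (sz w.1 a b * w.1 (pG a b x)) ≤ 0 :=
      mul_nonpos_of_nonneg_of_nonpos (by positivity) hcon
    linarith
  have h4 := Real.log_le_log (by positivity) h1
  rw [Real.log_mul h2.ne' (pow_pos hM 4).ne', Real.log_pow,
    Real.log_mul (by positivity) hR.ne'] at h4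
  unfold lossi Lam
  rw [Real.log_div (by positivity) h2.ne']
  push_cast at h4
  linarith

/-- the local inequality at the finite places -/
theorem loc_fin {a b : K} (ha : a ≠ 0) (hD : dl a b ≠ 0) (x : K) (v : Pr K)
    (hv : v ∉ wf (jj a b)) :
    4 * Lam a b x (fv v) - lossg a b v ≤
      Real.log (max (fv v (pF a b x)) (sz (fv v) a b * fv v (pG a b x))) := by
  have h4D : (4 : K) * dl a b ≠ 0 := mul_ne_zero (by norm_num) hD
  have h1 := res_na (w := fv v) (fv_Na v) (x := x) (sz_pos (b := b) ha)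
    (le_sz_sq (fv v) a b) (le_sz_cube (fv v) a b)
  have h2 : 0 < fv v (4 * dl a b) := (fv v).pos h4D
  have h3 : 0 < sz (fv v) a b := sz_pos ha
  have hM : 0 < max (fv v x) (sz (fv v) a b) := lt_max_of_lt_right h3
  have hR : 0 < max (fv v (pF a b x)) (sz (fv v) a b * fv v (pG a b x)) := by
    by_contra hcon
    push Not at hcon
    have h5 : 0 < fv v (4 * dl a b) * max (fv v x) (sz (fv v) a b) ^ 4 := by positivity
    have h6 : sz (fv v) a b ^ 6 *
        max (fv v (pF a b x)) (sz (fv v) a b * fv v (pG a b x)) ≤ 0 :=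
      mul_nonpos_of_nonneg_of_nonpos (by positivity) hcon
    linarith
  have h4 := Real.log_le_log (by positivity) h1
  rw [Real.log_mul h2.ne' (pow_pos hM 4).ne', Real.log_pow,
    Real.log_mul (by positivity) hR.ne'] at h4
  unfold lossg Lam
  rw [if_neg hv, Real.log_div (by positivity) h2.ne']
  push_cast at h4
  linarith

theorem supp_R {a b : K} (ha : a ≠ 0) (hb : b ≠ 0) {F G : K} (h : F ≠ 0 ∨ G ≠ 0) :
    (Function.support fun v : Pr K => Real.log (max (fv v F) (sz (fv v) a b * fv v G))).Finite := by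
  rcases h with h | h
  · refine (((ne_sets ha hb G).union (fv_support_finite h))).subset ?_
    intro v hv
    rw [Function.mem_support] at hv
    by_contra hcon
    simp only [Set.mem_union, Set.mem_ofPred_eq, not_or, not_not, not_lt] at hcon
    obtain ⟨⟨h1, h2, h3⟩, h4⟩ := hcon
    apply hv
    rw [sz_one h1 h2, one_mul, h4, max_eq_left h3, Real.log_one]
  · refine (((ne_sets ha hb F).union (fv_support_finite h))).subset ?_
    intro v hv
    rw [Function.mem_support] at hv
    by_contra hcon
    simp only [Set.mem_union, Set.mem_ofPred_eq, not_or, not_not, not_lt] at hcon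
    obtain ⟨⟨h1, h2, h3⟩, h4⟩ := hcon
    apply hv
    rw [sz_one h1 h2, one_mul, h4, max_eq_right h3, Real.log_one]

/-- **one duplication** -/
theorem psi_step {a b x : K} (ha : a ≠ 0) (hb : b ≠ 0) (hD : dl a b ≠ 0) (hG : pG a b x ≠ 0) :
    4 * Psi a b x - Loss a b ≤ Psi a b (pF a b x / pG a b x) := by
  classical
  have hs1 : (Function.support fun v : Pr K => Lam a b (pF a b x / pG a b x) (fv v)).Finite :=
    Fs_Lam ha hb (pF a b x / pG a b x)
  have hs2 : (Function.support fun v : Pr K => Real.log (fv v (pG a b x))).Finite := Fs_log hG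
  have hs3 : (Function.support fun v : Pr K => Lam a b x (fv v)).Finite := Fs_Lam ha hb x
  have hs4 := Fs_lossg ha hb hD
  have hs5 : ∀ z : K, (Function.support fun v : Pr K =>
      if v ∈ wf (jj a b) then cr a b z v else 0).Finite := fun z => supp_ite _ _
  have e1 : Psi a b (pF a b x / pG a b x) =
      Sm (fun w => Lam a b (pF a b x / pG a b x) w.1 + Real.log (w.1 (pG a b x)))
        (fun v => (Lam a b (pF a b x / pG a b x) (fv v) -
          if v ∈ wf (jj a b) then cr a b (pF a b x / pG a b x) v else 0) +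
            Real.log (fv v (pG a b x))) := by
    rw [Sm_add (supp_sub hs1 (hs5 _)) hs2]
    have := Sa_log (K := K) hG
    unfold Sa at this
    rw [this, add_zero, Psi_eq ha hb]
  have e2 : 4 * Psi a b x - Loss a b = Sm (fun w => 4 * Lam a b x w.1 - lossi a b w)
      (fun v => 4 * (Lam a b x (fv v) - if v ∈ wf (jj a b) then cr a b x v else 0) -
        lossg a b v) := by
    rw [Sm_sub (supp_mul 4 (supp_sub hs3 (hs5 _))) hs4, Sm_mul, Psi_eq ha hb]
    rfl
  rw [e1, e2]
  apply Sm_mono (supp_sub (supp_mul 4 (supp_sub hs3 (hs5 _))) hs4)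
    (supp_add (supp_sub hs1 (hs5 _)) hs2)
  · intro w
    show _ ≤ Real.log (max (w.1 (pF a b x / pG a b x)) (sz w.1 a b)) + Real.log (w.1 (pG a b x))
    rw [ptw ha hG]
    exact loc_inf ha hD x w
  · intro v
    by_cases hv : v ∈ wf (jj a b)
    · rw [if_pos hv, if_pos hv]
      obtain ⟨f1, f2⟩ := wf_facts hD hv
      obtain ⟨h2, h3, _⟩ := mem_wf.1 hv
      have hs := (sharp (fv_Na v) h2 h3 ha hb f1 (lam_pos hv) f2 x).1 hG
      have hp := ptw (w := fv v) (b := b) (F := pF a b x) ha hG
      unfold lossg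
      rw [if_pos hv, sub_zero]
      unfold cr po Lam
      linarith
    · rw [if_neg hv, if_neg hv, sub_zero, sub_zero]
      show _ ≤ Real.log (max (fv v (pF a b x / pG a b x)) (sz (fv v) a b)) +
        Real.log (fv v (pG a b x))
      rw [ptw ha hG]
      exact loc_fin ha hD x v hv

theorem F_ne {a b x : K} (hD : dl a b ≠ 0) (hG : pG a b x = 0) : pF a b x ≠ 0 := by
  intro h
  have := res1 a b x
  rw [h, hG, mul_zero, mul_zero, sub_zero] at this
  rcases mul_eq_zero.1 this.symm with h1 | h1
  · norm_num at h1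
  · exact hD h1

/-- the points of order two -/
theorem psi_two {a b x : K} (ha : a ≠ 0) (hb : b ≠ 0) (hD : dl a b ≠ 0) (hG : pG a b x = 0) :
    4 * Psi a b x - Loss a b ≤ 0 := by
  classical
  have hF := F_ne hD hG
  have hs2 : (Function.support fun v : Pr K => Real.log (fv v (pF a b x))).Finite := Fs_log hF
  have hs3 : (Function.support fun v : Pr K => Lam a b x (fv v)).Finite := Fs_Lam ha hb x
  have hs4 := Fs_lossg ha hb hD
  have hs5 : ∀ z : K, (Function.support fun v : Pr K =>
      if v ∈ wf (jj a b) then cr a b z v else 0).Finite := fun z => supp_ite _ _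
  have e2 : 4 * Psi a b x - Loss a b = Sm (fun w => 4 * Lam a b x w.1 - lossi a b w)
      (fun v => 4 * (Lam a b x (fv v) - if v ∈ wf (jj a b) then cr a b x v else 0) -
        lossg a b v) := by
    rw [Sm_sub (supp_mul 4 (supp_sub hs3 (hs5 _))) hs4, Sm_mul, Psi_eq ha hb]
    rfl
  have e3 := Sa_log (K := K) hF
  rw [e2]
  refine le_trans ?_ e3.le
  unfold Sa
  have hR : ∀ w : AbsoluteValue K ℝ, max (w (pF a b x)) (sz w a b * w (pG a b x)) =
      w (pF a b x) := by
    intro w
    rw [hG, map_zero, mul_zero, max_eq_left (w.nonneg _)]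
  apply Sm_mono (supp_sub (supp_mul 4 (supp_sub hs3 (hs5 _))) hs4) hs2
  · intro w
    have := loc_inf ha hD x w
    rwa [hR] at this
  · intro v
    by_cases hv : v ∈ wf (jj a b)
    · rw [if_pos hv]
      obtain ⟨f1, f2⟩ := wf_facts hD hv
      obtain ⟨h2, h3, _⟩ := mem_wf.1 hv
      have hs := (sharp (fv_Na v) h2 h3 ha hb f1 (lam_pos hv) f2 x).2 hG
      rw [hR] at hs
      unfold lossg
      rw [if_pos hv, sub_zero]
      exact hs
    · rw [if_neg hv, sub_zero]
      have := loc_fin ha hD x v hv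
      rwa [hR] at this

theorem Loss_nonneg {a b : K} (ha : a ≠ 0) (hD : dl a b ≠ 0) : 0 ≤ Loss a b := by
  have h4D : (4 : K) * dl a b ≠ 0 := mul_ne_zero (by norm_num) hD
  apply Sm_nonneg
  · intro w
    unfold lossi
    apply Real.log_nonneg
    rw [one_le_div (w.1.pos h4D)]
    have h4 : w.1 (4 : K) = 4 := by
      have := inf_nat w 4
      exact_mod_cast this
    have h27 : w.1 (27 : K) = 27 := by
      have := inf_nat w 27
      exact_mod_cast this
    have hdl : w.1 (dl a b) ≤ 31 * sz w.1 a b ^ 6 := by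
      unfold dl
      refine (w.1.add_le _ _).trans ?_
      rw [map_mul, map_mul, map_pow, map_pow, h4, h27, sz_six]
      have h5 := le_max_left (w.1 a ^ 3) (w.1 b ^ 2)
      have h6 := le_max_right (w.1 a ^ 3) (w.1 b ^ 2)
      linarith
    rw [map_mul, h4]
    have : 0 < sz w.1 a b ^ 6 := pow_pos (sz_pos ha) 6
    linarith
  · intro v
    unfold lossg
    split_ifs
    · exact le_rfl
    · apply Real.log_nonneg
      rw [one_le_div ((fv v).pos h4D)]
      have hn := fv_Na v
      have hdl : fv v (dl a b) ≤ sz (fv v) a b ^ 6 := by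
        unfold dl
        rw [sz_six]
        refine (fv_na v _ _).trans (max_le_max ?_ ?_)
        · rw [map_mul, map_pow]
          have h5 : fv v (4 : K) ≤ 1 := hn.ofNat 4
          have h6 : 0 ≤ fv v a ^ 3 := pow_nonneg ((fv v).nonneg _) _
          nlinarith
        · rw [map_mul, map_pow]
          have h5 : fv v (27 : K) ≤ 1 := hn.ofNat 27
          have h6 : 0 ≤ fv v b ^ 2 := pow_nonneg ((fv v).nonneg _) _
          nlinarith
      rw [map_mul]
      have h5 : fv v (4 : K) ≤ 1 := hn.ofNat 4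
      have h6 := (fv v).nonneg (dl a b)
      nlinarith

end Glob

section Chat

variable {K : Type} [Field K] [NumberField K] [DecidableEq K]

theorem psi_iter {a b : K} (ha : a ≠ 0) (hb : b ≠ 0) (hD : dl a b ≠ 0) {x : ℕ → K}
    (hG : ∀ k, pG a b (x k) ≠ 0) (hx : ∀ k, x (k + 1) = pF a b (x k) / pG a b (x k)) (k : ℕ) :
    (4 : ℝ) ^ k * (Psi a b (x 0) - Loss a b / 3) ≤ Psi a b (x k) - Loss a b / 3 := by
  induction k with
  | zero => simp
  | succ k ih =>
    have h1 := psi_step ha hb hD (hG k)
    rw [← hx k] at h1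
    rw [pow_succ]
    linarith

theorem Psi_le_Lam {a b : K} (x : K) : Psi a b x ≤ Sa (Lam a b x) := by
  unfold Psi
  have : 0 ≤ ∑ v ∈ wf (jj a b), cr a b x v := Finset.sum_nonneg fun v hv =>
    corr_nonneg (lam_pos hv) (ps_nonneg (lam_pos hv)) (ps_le (lam_pos hv))
  linarith

/-- **the corrected height is at most the canonical height, up to the loss** -/
theorem psi_le {a b : K} (ha : a ≠ 0) (hb : b ≠ 0) (hD : dl a b ≠ 0) {x y : K}
    (h : (sw a b).toAffine.Nonsingular x y) :
    Psi a b x ≤ chat (Affine.Point.some x y h : SPt a b) + Loss a b / 3 := by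
  have hL := Loss_nonneg (b := b) ha hD
  have hc0 := (chat_spec hD).2.1
  by_cases hfin : ∃ k : ℕ, (2 ^ k : ℕ) • (Affine.Point.some x y h : SPt a b) = 0
  · obtain ⟨k, hk⟩ := hfin
    have key : ∀ (k : ℕ) (x y : K) (h : (sw a b).toAffine.Nonsingular x y),
        (2 ^ k : ℕ) • (Affine.Point.some x y h : SPt a b) = 0 → Psi a b x ≤ Loss a b / 3 := by
      intro k
      induction k with
      | zero =>
        intro x y h h0
        rw [pow_zero, one_smul] at h0
        exact absurd h0 (by intro h9; cases h9)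
      | succ k ih =>
        intro x y h h0
        rcases eq_or_ne y 0 with hy | hy
        · have he : y ^ 2 = x ^ 3 + a * x + b := sw_eqn.1 h.1
          have hG : pG a b x = 0 := by
            unfold pG
            rw [← he, hy]
            ring
          have := psi_two ha hb hD hG
          linarith
        · obtain ⟨hG, y', h', e⟩ := dup_some h hy
          rw [pow_succ, mul_smul, e] at h0
          have h1 := ih _ _ h' h0
          have h2 := psi_step ha hb hD hG
          linarith
    have := key k x y h hk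
    have := hc0 (Affine.Point.some x y h : SPt a b)
    linarith
  · push Not at hfin
    set P : SPt a b := Affine.Point.some x y h with hP
    have hex : ∀ k : ℕ, ∃ (x y : K) (h : (sw a b).toAffine.Nonsingular x y),
        (2 ^ k : ℕ) • P = Affine.Point.some x y h := fun k => exists_coord _ (hfin k)
    choose x' y' h' hxy using hex
    have hy : ∀ k, y' k ≠ 0 := by
      intro k h0
      apply hfin (k + 1)
      rw [pow_succ, mul_comm, mul_smul, hxy k]
      exact dup_zero (h' k) h0
    have hG : ∀ k, pG a b (x' k) ≠ 0 := fun k => (dup_some (h' k) (hy k)).1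
    have hx : ∀ k, x' (k + 1) = pF a b (x' k) / pG a b (x' k) := by
      intro k
      obtain ⟨_, y'', h'', e⟩ := dup_some (h' k) (hy k)
      have e1 : (2 ^ (k + 1) : ℕ) • P = Affine.Point.some _ y'' h'' := by
        rw [pow_succ, mul_comm, mul_smul, hxy k, e]
      rw [hxy (k + 1)] at e1
      injection e1
    have hx0 : x' 0 = x := by
      have e1 := hxy 0
      rw [pow_zero, one_smul, hP] at e1
      injection e1 with e2
      exact e2.symm
    set D := Sa (fun w : AbsoluteValue K ℝ => Real.log (max (sz w a b) 1)) with hDD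
    set A := Psi a b x - Loss a b / 3 with hA
    have hlow : ∀ k : ℕ, A + (Loss a b / 3 - D) / 4 ^ k ≤ sht ((2 ^ k : ℕ) • P) / 4 ^ k := by
      intro k
      have h1 := psi_iter ha hb hD hG hx k
      have h2 := sht_ge ha hb (h' k)
      have h3 := Psi_le_Lam (a := a) (b := b) (x' k)
      rw [← hxy k, ← hDD] at h2
      rw [hx0, ← hA] at h1
      have h4 : (0 : ℝ) < 4 ^ k := by positivity
      rw [← sub_nonneg]
      have e : sht ((2 ^ k : ℕ) • P) / 4 ^ k - (A + (Loss a b / 3 - D) / 4 ^ k) =
          (sht ((2 ^ k : ℕ) • P) - 4 ^ k * A - Loss a b / 3 + D) / 4 ^ k := by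
        field_simp
        ring
      rw [e]
      apply div_nonneg _ h4.le
      linarith
    have hlim := (chat_spec hD).1 P
    have hlim2 : Tendsto (fun k : ℕ => A + (Loss a b / 3 - D) / 4 ^ k) atTop (𝓝 (A + 0)) := by
      apply Tendsto.add tendsto_const_nhds
      have h5 : Tendsto (fun k : ℕ => (4 : ℝ) ^ k) atTop atTop :=
        tendsto_pow_atTop_atTop_of_one_lt (by norm_num)
      exact h5.const_div_atTop _
    have hfin' : A + 0 ≤ chat P := le_of_tendsto_of_tendsto' hlim2 hlim hlow
    linarith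

end Chat

end Pool.Agent.Q237.LS
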