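import Mathlib
import Pool.Agent.H16.LA.R39.Q237.LS.Det
import Pool.Agent.H16.LA.ExtBase
import Pool.Agent.H16.LA.S8.Y725.LS.Energy

/-!
# The poles of `j` in an extension
-/

set_option autoImplicit false
set_option linter.unusedSectionVars false

namespace Pool.Agent.Q237.LS

open NumberField IsDedekindDomain Finset Pool.Agent.H691R3 Pool.Agent.W223.AK
open Pool.Agent.TH942 Pool.Agent.TH910.LS Pool.Agent.Y733.LS
open Pool.Agent.Y725.LS (below ldeg ldeg_pos ext_apply mem_over ideal_inj)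

section Ext

variable {K : Type} [Field K] [NumberField K] {L : Type} [Field L] [NumberField L] [Algebra K L]

theorem fv_ext (w : Pr L) (x : K) : fv w (algebraMap K L x) =
    fv (w.under (𝓞 K)) x ^ ldeg K (FinitePlace.mk w) := by
  have h := ext_apply (K := K) (FinitePlace.mk w) x
  have e : below K (FinitePlace.mk w) = FinitePlace.mk (w.under (𝓞 K)) := by
    unfold Pool.Agent.Y725.LS.below
    rw [FinitePlace.maximalIdeal_mk]
  rw [e] at h
  exact h

theorem ldeg_pos' (w : Pr L) : 0 < ldeg K (FinitePlace.mk w) := ldeg_pos K _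

theorem fv_ext_one (w : Pr L) (x : K) :
    fv w (algebraMap K L x) = 1 ↔ fv (w.under (𝓞 K)) x = 1 := by
  rw [fv_ext]
  exact pow_eq_one_iff_of_nonneg ((fv _).nonneg _) (ldeg_pos' w).ne'

theorem fv_ext_lt (w : Pr L) (x : K) :
    1 < fv w (algebraMap K L x) ↔ 1 < fv (w.under (𝓞 K)) x := by
  rw [fv_ext]
  exact one_lt_pow_iff_of_nonneg ((fv _).nonneg _) (ldeg_pos' w).ne'

theorem mem_wf_ext (w : Pr L) (j : K) :
    w ∈ wf (algebraMap K L j) ↔ w.under (𝓞 K) ∈ wf j := by
  rw [mem_wf, mem_wf]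
  have e2 : (2 : L) = algebraMap K L 2 := (map_ofNat (algebraMap K L) 2).symm
  have e3 : (3 : L) = algebraMap K L 3 := (map_ofNat (algebraMap K L) 3).symm
  rw [e2, e3, fv_ext_one, fv_ext_one, fv_ext_lt]

/-- the height in an extension -/
theorem ht_ext (j : K) : ht (algebraMap K L j) = Module.finrank K L * ht j := by
  have h := Pool.Agent.Y725.LS.logHeight₁_ext (K := K) (L := L) j
  rw [logHeight_eq, logHeight_eq, ← ht_eq_Sa, ← ht_eq_Sa] at h
  exact h

/-- the fundamental identity -/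
theorem sum_ldeg_eq (j : K) {v : Pr K} (hv : v ∈ wf j) [DecidableEq (Pr K)] :
    ∑ w ∈ (wf (algebraMap K L j)).filter (fun w => w.under (𝓞 K) = v),
      ldeg K (FinitePlace.mk w) = Module.finrank K L := by
  classical
  haveI : v.asIdeal.IsMaximal := v.isMaximal
  have h := Ideal.sum_ramification_inertia (R := 𝓞 K) (𝓞 L) K L (p := v.asIdeal) v.ne_bot
  rw [← h]
  have hinj : Set.InjOn (fun w : Pr L => w.asIdeal)
      ((wf (algebraMap K L j)).filter (fun w => w.under (𝓞 K) = v) : Finset (Pr L)) :=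
    fun a _ b _ hab => HeightOneSpectrum.ext hab
  have h1 : ∑ w ∈ (wf (algebraMap K L j)).filter (fun w => w.under (𝓞 K) = v),
      ldeg K (FinitePlace.mk w) =
      ∑ P ∈ ((wf (algebraMap K L j)).filter (fun w => w.under (𝓞 K) = v)).image
        (fun w : Pr L => w.asIdeal), v.asIdeal.ramificationIdx' P * v.asIdeal.inertiaDeg' P := by
    rw [Finset.sum_image hinj]
    refine Finset.sum_congr rfl fun w hw => ?_
    unfold Pool.Agent.Y725.LS.ldeg Pool.Agent.Y725.LS.below
    rw [FinitePlace.maximalIdeal_mk, FinitePlace.maximalIdeal_mk, (Finset.mem_filter.1 hw).2]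
  rw [h1]
  refine Finset.sum_congr ?_ fun _ _ => rfl
  ext P
  rw [Finset.mem_image, IsDedekindDomain.mem_primesOverFinset_iff v.ne_bot]
  constructor
  · rintro ⟨w, hw, rfl⟩
    obtain ⟨_, h2⟩ := Finset.mem_filter.1 hw
    refine ⟨w.isPrime, ⟨?_⟩⟩
    rw [← h2]
    rfl
  · rintro ⟨hP, hPv⟩
    have hbot : P ≠ ⊥ := by
      haveI : P.LiesOver v.asIdeal := hPv
      exact Ideal.ne_bot_of_liesOver_of_ne_bot v.ne_bot P
    refine ⟨⟨P, hP, hbot⟩, ?_, rfl⟩
    have hu : (⟨P, hP, hbot⟩ : Pr L).under (𝓞 K) = v := by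
      apply HeightOneSpectrum.ext
      exact hPv.over.symm
    rw [Finset.mem_filter]
    refine ⟨?_, hu⟩
    rw [mem_wf_ext, hu]
    exact hv

/-- the contribution of the poles in an extension -/
theorem wd_ext (j : K) : wd (algebraMap K L j) = Module.finrank K L * wd j := by
  classical
  unfold wd
  rw [← Finset.sum_fiberwise_of_maps_to (g := fun w : Pr L => w.under (𝓞 K)) (t := wf j)
    (fun w hw => (mem_wf_ext w j).1 hw), Finset.mul_sum]
  refine Finset.sum_congr rfl fun v hv => ?_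
  rw [← sum_ldeg_eq (L := L) j hv]
  push_cast
  rw [Finset.sum_mul]
  refine Finset.sum_congr rfl fun w hw => ?_
  rw [fv_ext, (Finset.mem_filter.1 hw).2, Real.log_pow]

theorem wd_le_ht (j : K) : wd j ≤ ht j := by
  refine le_trans (le_of_eq ?_) (sum_max_le j (wf j))
  unfold wd
  refine Finset.sum_congr rfl fun v hv => ?_
  rw [max_eq_left (mem_wf.1 hv).2.2.le]

theorem sp_sum (j : K) : sp j ≤ wd j ∧ sp j ≤ fd j := by
  classical
  have h1 : ∀ v, Sp j v → v ∈ wf j := fun v hv => mem_wf.2 ⟨hv.1, hv.2.1, by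
    rw [hv.2.2]; exact Nv_one_lt v⟩
  have h2 := sp_eq j (wf j) h1
  rw [h2]
  constructor
  · refine Finset.sum_le_sum fun v hv => ?_
    split_ifs with h
    · rw [h.2.2]
    · exact (Real.log_pos (mem_wf.1 hv).2.2).le
  · refine Finset.sum_le_sum fun v hv => ?_
    split_ifs with h
    · exact le_rfl
    · exact (log_Nv_pos v).le

end Ext

end Pool.Agent.Q237.LS
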