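import Mathlib
import Pool.Agent.H16.LA.R39.Q237.LS.Ext
import Pool.Agent.H16.LA.S8.Y733.LS.Fin

/-!
# The lower bound and the bound for the torsion, for single curves and in extensions
-/

set_option autoImplicit false
set_option linter.unusedSectionVars false

namespace Pool.Agent.Q237.LS

open NumberField IsDedekindDomain Finset Pool.Agent.H691R3 Pool.Agent.W223.AK
open Pool.Agent.TH942 Pool.Agent.TH910.LS Pool.Agent.Y733.LS Pool.Agent.Y733.UD WeierstrassCurve

/-- the constant of the largeness condition -/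
noncomputable def c5 : ℝ := c2 + 1 + C4

theorem C4_nonneg : 0 ≤ C4 :=
  add_nonneg (Real.log_nonneg (by norm_num)) (Real.log_nonneg (by norm_num))

theorem c5_pos : 0 < c5 := by
  unfold c5
  linarith [c2_nonneg, C4_nonneg]

/-- the conclusion for the number field `L` and the invariant `j`: with the constants `c` and `B`,
the lower bound of Lang and Silverman and the bound for the orders of the torsion points -/
def LT (c B : ℝ) {L : Type} [Field L] [NumberField L] [DecidableEq L] (j : L) : Prop :=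
  ∀ a b : L, dl a b ≠ 0 → jj a b = j →
    (∀ Q : SPt a b, IsOfFinAddOrder Q → (addOrderOf Q : ℝ) ≤ B) ∧
    (∀ S : Finset (Pr L), (∀ v ∈ S, BadAt a b v) →
      ∀ (g : ℕ) (M : Matrix (Fin g) (Fin g) ℤ), (M.map (Int.cast : ℤ → ℝ)).PosDef →
      ∀ P : Fin g → SPt a b, ¬ IsOfFinAddOrder P →
        c * (Module.finrank ℚ L + ht j + ∑ v ∈ S, Real.log (Nv v)) ≤ chatM M P)

theorem LT_mono {c c' B B' : ℝ} (hc : c' ≤ c) (hB : B ≤ B') {L : Type} [Field L]
    [NumberField L] [DecidableEq L] {j : L} (h : LT c B j) : LT c' B' j := by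
  intro a b hD hj
  obtain ⟨h1, h2⟩ := h a b hD hj
  refine ⟨fun Q hQ => (h1 Q hQ).trans hB, fun S hS g M hM P hP => ?_⟩
  refine le_trans (mul_le_mul_of_nonneg_right hc ?_) (h2 S hS g M hM P hP)
  have h4 : 0 ≤ ∑ v ∈ S, Real.log (Nv v) := Finset.sum_nonneg fun v _ => (log_Nv_pos v).le
  have h5 := ht_nonneg j
  positivity

/-- **The theorem for a single invariant over a number field of any degree.** -/
theorem LT_of {L : Type} [Field L] [NumberField L] [DecidableEq L] {j : L} (h0 : j ≠ 0)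
    (h1 : j ≠ 1728) {θ : ℝ} (hθ : 0 < θ) (hθ1 : θ ≤ 1) (hf : θ * ht j ≤ fd j)
    (hw' : ht j - wd j ≤ θ ^ 2 / 48 * ht j)
    (hht : Module.finrank ℚ L * c5 ≤ θ ^ 2 / 96 * ht j) :
    LT (θ ^ 6 / 1110000) (68 / θ ^ 2) j := by
  intro a b hD hj
  have ha : a ≠ 0 := by
    rintro rfl
    apply h0
    rw [← hj]
    unfold jj
    simp
  have hb : b ≠ 0 := by
    rintro rfl
    apply h1
    have h3 := jj_sub a 0 hD
    rw [hj] at h3
    have h4 : j - 1728 = 0 := by rw [h3]; simp
    linear_combination h4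
  subst hj
  set j := jj a b with hj
  have hn : (0 : ℝ) < Module.finrank ℚ L := by exact_mod_cast Module.finrank_pos
  set n : ℝ := (Module.finrank ℚ L : ℝ) with hndef
  have hwd := wd_le_ht j
  have hc2 := c2_nonneg
  have hC4 := C4_nonneg
  have hht2 : n * c2 ≤ θ ^ 2 / 96 * ht j := by
    refine le_trans ?_ hht
    apply mul_le_mul_of_nonneg_left _ hn.le
    unfold c5
    linarith
  have hθ2 : 0 < θ ^ 2 := by positivity
  have hθ21 : θ ^ 2 ≤ 1 := pow_le_one₀ hθ.le hθ1
  have hhtpos : 0 < ht j := by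
    have h3 : 0 < n * c5 := mul_pos hn c5_pos
    have h4 : 0 < θ ^ 2 / 96 * ht j := lt_of_lt_of_le h3 hht
    by_contra hcon
    push Not at hcon
    have : θ ^ 2 / 96 * ht j ≤ 0 := mul_nonpos_of_nonneg_of_nonpos (by positivity) hcon
    linarith
  have hht3 : n * (1 + C4) ≤ ht j := by
    have h3 : n * (1 + C4) ≤ n * c5 := by
      apply mul_le_mul_of_nonneg_left _ hn.le
      unfold c5
      linarith
    nlinarith
  -- the number of points
  set N : ℕ := ⌈16 / θ ^ 2⌉₊ with hN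
  have hN1 : 16 / θ ^ 2 ≤ N := Nat.le_ceil _
  have hN2 : (N : ℝ) < 16 / θ ^ 2 + 1 := Nat.ceil_lt_add_one (by positivity)
  have h16 : 16 ≤ θ ^ 2 * N := by
    rw [div_le_iff₀ hθ2] at hN1
    linarith
  have hN3 : (N : ℝ) * θ ^ 2 ≤ 17 := by
    have h3 : (N : ℝ) * θ ^ 2 ≤ (16 / θ ^ 2 + 1) * θ ^ 2 :=
      mul_le_mul_of_nonneg_right hN2.le hθ2.le
    have h4 : (16 / θ ^ 2 + 1) * θ ^ 2 = 16 + θ ^ 2 := by field_simp
    linarith
  have hN16 : (16 : ℝ) ≤ N := by nlinarith
  have hNge : 2 ≤ N := by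
    have : (2 : ℝ) ≤ N := by linarith
    exact_mod_cast this
  -- the bound for one point
  have key : ∀ (T : Finset (Pr L)), (∀ v ∈ T, GainAt a b v) → ∀ P : SPt a b,
      (∀ m : ℕ, 1 ≤ m → m ≤ 4 * N → m • P ≠ 0) →
      θ ^ 2 / 192 * ht j + (∑ v ∈ T, Real.log (Nv v)) / 4 ≤ 4 * (N : ℝ) ^ 2 * chat P :=
    fun T hT P hP => main_one ha hb hD hθ hf hwd hw' hht2 N hNge h16 T hT P hP
  have hB4 : ((4 * N : ℕ) : ℝ) ≤ 68 / θ ^ 2 := by
    rw [le_div_iff₀ hθ2]
    push_cast
    linarith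
  constructor
  · intro Q hQ
    refine le_trans ?_ hB4
    by_contra hcon
    push Not at hcon
    have hcon' : 4 * N < addOrderOf Q := by exact_mod_cast hcon
    have h3 := key ∅ (by simp) Q (fun m hm1 hm2 h0 => by
      have := addOrderOf_le_of_nsmul_eq_zero (by omega) h0
      omega)
    rw [tors_zero (a := a) (b := b) hD hQ, Finset.sum_empty] at h3
    have : 0 < θ ^ 2 / 192 * ht j := by positivity
    linarith
  · intro S hS g M hM P hP
    obtain ⟨Q, _, hQ, hQ'⟩ := reduction (a := a) (b := b) hD M hM P hP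
    refine le_trans ?_ hQ'
    obtain ⟨T, hT, hTS⟩ := bad_sum ha hb hD S hS
    have hQm : ∀ m : ℕ, 1 ≤ m → m ≤ 4 * N → m • Q ≠ 0 := by
      intro m hm1 _ h0
      exact hQ (isOfFinAddOrder_iff_nsmul_eq_zero.2 ⟨m, hm1, h0⟩)
    have h3 := key T hT Q hQm
    have hT0 : 0 ≤ ∑ v ∈ T, Real.log (Nv v) := Finset.sum_nonneg fun v _ => (log_Nv_pos v).le
    have hC4' : Real.log 6 + Real.log 1729 = C4 := rfl
    rw [hC4', ← hj, ← hndef] at hTS
    generalize (∑ v ∈ T, Real.log (Nv v)) = sT at h3 hT0 hTS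
    generalize (∑ v ∈ S, Real.log (Nv v)) = sS at hTS ⊢
    have h4 : n + ht j + sS ≤ 5 * ht j + sT := by linarith
    have hN0 : (0 : ℝ) < N := by linarith
    -- the constant
    have hc : θ ^ 6 / 1110000 ≤ θ ^ 2 / (3840 * (N : ℝ) ^ 2) := by
      rw [div_le_div_iff₀ (by norm_num) (by positivity)]
      have h5 : ((N : ℝ) * θ ^ 2) ^ 2 ≤ 17 ^ 2 := pow_le_pow_left₀ (by positivity) hN3 2
      have h6 : θ ^ 6 * (3840 * (N : ℝ) ^ 2) = θ ^ 2 * 3840 * ((N : ℝ) * θ ^ 2) ^ 2 := by ring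
      rw [h6]
      nlinarith
    have h5 : 0 ≤ 5 * ht j + sT := by positivity
    have hcpos : (0 : ℝ) ≤ θ ^ 6 / 1110000 := by positivity
    calc θ ^ 6 / 1110000 * (n + ht j + sS) ≤ θ ^ 6 / 1110000 * (5 * ht j + sT) :=
          mul_le_mul_of_nonneg_left h4 hcpos
      _ ≤ θ ^ 2 / (3840 * (N : ℝ) ^ 2) * (5 * ht j + sT) :=
          mul_le_mul_of_nonneg_right hc h5
      _ ≤ (θ ^ 2 / 192 * ht j + sT / 4) / (4 * (N : ℝ) ^ 2) := by
          rw [div_mul_eq_mul_div, div_le_div_iff₀ (by positivity) (by positivity)]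
          have h6 : θ ^ 2 * sT ≤ 1 * sT := mul_le_mul_of_nonneg_right hθ21 hT0
          have h7 : 0 ≤ θ ^ 2 * ht j := by positivity
          have h8 : 0 < (N : ℝ) ^ 2 := by positivity
          have h9 : θ ^ 2 * (5 * ht j + sT) * 4 ≤ (θ ^ 2 / 192 * ht j + sT / 4) * 3840 := by
            nlinarith
          calc θ ^ 2 * (5 * ht j + sT) * (4 * (N : ℝ) ^ 2)
              = (θ ^ 2 * (5 * ht j + sT) * 4) * (N : ℝ) ^ 2 := by ring
            _ ≤ ((θ ^ 2 / 192 * ht j + sT / 4) * 3840) * (N : ℝ) ^ 2 :=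
                mul_le_mul_of_nonneg_right h9 h8.le
            _ = _ := by ring
      _ ≤ chat Q := by
          rw [div_le_iff₀ (by positivity)]
          linarith

section Ext

variable {K : Type} [Field K] [NumberField K] {L : Type} [Field L] [NumberField L] [Algebra K L]

theorem finrank_mul : (Module.finrank ℚ L : ℝ) = Module.finrank K L * Module.finrank ℚ K := by
  have h := Module.finrank_mul_finrank ℚ K L
  rw [← h]
  push_cast
  ring

end Ext

/-- the conclusion in all extensions with a root discriminant which is not large -/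
def UT (κ c B : ℝ) {K : Type} [Field K] [NumberField K] (j : K) : Prop :=
  ∀ (L : Type) [Field L] [NumberField L] [Algebra K L] [DecidableEq L],
    Real.log |(discr L : ℝ)| ≤ Module.finrank K L * (Real.log |(discr K : ℝ)| + κ * ht j) →
    LT c B (algebraMap K L j)

end Pool.Agent.Q237.LS
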